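import Pool.Agent.Q149.WA.Wts

/-!
# Alperin's weight conjecture modulo two
-/

set_option autoImplicit false

open scoped Classical

noncomputable section

namespace Pool.Agent.Q149.WA

open Pool.Agent.Q90.WR
open Pool.Agent.Y63.AWC (numWeights numRegularClasses)

variable {p : ℕ} [hp : Fact p.Prime]

theorem dvd_levels (hp2 : p ≠ 2) : ∀ (a : ℕ) (G : Type) [Group G] [Finite G],
    (∀ j ≤ a, numRegularClasses p (WrN j G) ≡ numWeights p (WrN j G) [MOD 2]) →
    (2 : ℤ) ^ (a + 1) ∣ (numRegularClasses p G : ℤ) - numWeights p G := by
  intro a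
  induction a with
  | zero =>
    intro G _ _ H
    rw [zero_add, pow_one]
    exact Nat.modEq_iff_dvd.mp (H 0 le_rfl).symm
  | succ a ih =>
    intro G _ _ H
    have h3 := ih (Wr G) fun j hj => H (j + 1) (by omega)
    have e1 : 2 * (numRegularClasses p (Wr G) : ℤ) = (numRegularClasses p G : ℤ) ^ 2 +
        3 * numRegularClasses p G := by
      exact_mod_cast numRegularClasses_wr (p := p) (G := G) hp.out hp2
    have e2 : 2 * (numWeights p (Wr G) : ℤ) = (numWeights p G : ℤ) ^ 2 +
        3 * numWeights p G := by
      exact_mod_cast numWeights_wr (p := p) (G := G) hp2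
    exact step e1 e2 (ih G fun j hj => H j (by omega)) h3

theorem eq_levels (hp2 : p ≠ 2) : ∀ (a : ℕ) (G : Type) [Group G] [Finite G],
    numRegularClasses p G = numWeights p G →
      numRegularClasses p (WrN a G) = numWeights p (WrN a G) := by
  intro a
  induction a with
  | zero =>
    intro G _ _ H
    exact H
  | succ a ih =>
    intro G _ _ H
    refine ih (Wr G) ?_
    have e1 := numRegularClasses_wr (p := p) (G := G) hp.out hp2
    have e2 := numWeights_wr (p := p) (G := G) hp2
    rw [H] at e1
    have := e1.trans e2.symm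
    omega

/-- the criterion for a single group -/
theorem one_group (hp2 : p ≠ 2) (G : Type) [Group G] [Finite G] :
    numRegularClasses p G = numWeights p G ↔
      ∀ j : ℕ, 2 ^ j ≤ Nat.card G * Nat.card {Q : Subgroup G // IsPGroup p Q} →
        numRegularClasses p (WrN j G) ≡ numWeights p (WrN j G) [MOD 2] := by
  constructor
  · intro h j _
    rw [eq_levels hp2 j G h]
  · intro H
    set M := Nat.card G * Nat.card {Q : Subgroup G // IsPGroup p Q} with hM
    have hne : Nonempty {Q : Subgroup G // IsPGroup p Q} := ⟨⟨⊥, IsPGroup.of_bot⟩⟩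
    have hpos : 0 < Nat.card {Q : Subgroup G // IsPGroup p Q} := Nat.card_pos
    have hG : 0 < Nat.card G := Nat.card_pos
    have hM0 : 0 < M := Nat.mul_pos hG hpos
    set a := Nat.log 2 M with ha
    have h3 : ∀ j ≤ a, 2 ^ j ≤ M := fun j hj =>
      (Nat.pow_le_pow_right (by norm_num) hj).trans (Nat.pow_log_le_self 2 hM0.ne')
    have h4 := dvd_levels hp2 a G fun j hj => H j (h3 j hj)
    have h5 : M < 2 ^ (a + 1) := Nat.lt_pow_succ_log_self (by norm_num) _
    have h6 : numRegularClasses p G ≤ M :=
      (numRegularClasses_le p G).trans (Nat.le_mul_of_pos_right _ hpos)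
    have h7 : numWeights p G ≤ M := numWeights_le p G
    have h8 : |(numRegularClasses p G : ℤ) - numWeights p G| < 2 ^ (a + 1) := by
      have h9 : (M : ℤ) < 2 ^ (a + 1) := by exact_mod_cast h5
      rw [abs_lt]
      constructor <;> omega
    have h9 := Int.eq_zero_of_abs_lt_dvd h4 h8
    omega

/-- the criterion for classes of groups -/
theorem all_groups (hp2 : p ≠ 2) (C : (G : Type) → Group G → Prop)
    (hC : ∀ (G : Type) [i : Group G] [Finite G], C G i → C (Wr G) inferInstance) :
    (∀ (G : Type) [i : Group G] [Finite G], C G i → numRegularClasses p G = numWeights p G) ↔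
      ∀ (G : Type) [i : Group G] [Finite G], C G i →
        numRegularClasses p G ≡ numWeights p G [MOD 2] := by
  constructor
  · intro H G _ _ h
    rw [H G h]
  · intro H G _ _ h
    rw [one_group hp2]
    intro j _
    have key : ∀ (j : ℕ) (G : Type) [i : Group G] [Finite G], C G i →
        C (WrN j G) (instGroupWrN j G) := by
      intro j
      induction j with
      | zero =>
        intro G _ _ h
        exact h
      | succ j ih =>
        intro G _ _ h
        exact ih (Wr G) (hC G h)
    exact H (WrN j G) (key j G h)

end Pool.Agent.Q149.WA
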