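import Pool.Agent.Q90.WR.Tower
import Pool.Agent.Y63.KR.Limit

/-!
# Characters of defect zero of direct products and of wreath products with a group of order two
-/

set_option autoImplicit false

open scoped BigOperators Classical TensorProduct

noncomputable section

namespace Pool.Agent.Q149.WA

open Pool.Agent.Helper884.IC Pool.Agent.Q90.WR Representation
open Pool.Agent.Y63.AWC (numDefectZero numDefectZero_eq DZ numDefectZero_congr deg_dvd)

section prod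

variable {X Y : Type} [Group X] [Group Y] [Fintype X] [Fintype Y]

/-- the external product of two functions -/
def ep (θ : X → ℂ) (ψ : Y → ℂ) (z : X × Y) : ℂ := θ z.1 * ψ z.2

theorem B_ep (θ θ' : X → ℂ) (ψ ψ' : Y → ℂ) : B (ep θ ψ) (ep θ' ψ') = B θ θ' * B ψ ψ' := by
  unfold B
  rw [Fintype.sum_prod_type, Nat.card_prod]
  have h : ∑ x : X, ∑ y : Y, ep θ ψ (x, y) * ep θ' ψ' (x, y)⁻¹ =
      (∑ x : X, θ x * θ' x⁻¹) * ∑ y : Y, ψ y * ψ' y⁻¹ := by
    rw [Finset.sum_mul_sum]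
    refine Finset.sum_congr rfl fun x _ => Finset.sum_congr rfl fun y _ => ?_
    simp only [ep, Prod.fst_inv, Prod.snd_inv]
    ring
  rw [h]
  push_cast
  rw [mul_inv]
  ring

theorem ep_irr {θ : X → ℂ} {ψ : Y → ℂ} (h1 : IsIrrChar θ) (h2 : IsIrrChar ψ) :
    IsIrrChar (ep θ ψ) := by
  have hcl : IsClass (ep θ ψ) := by
    rintro ⟨a, b⟩ ⟨c, d⟩
    simp only [ep, Prod.mk_mul_mk, Prod.inv_mk]
    rw [h1.isClass, h2.isClass]
  refine irr_of_norm hcl ?_ ?_ ?_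
  · intro χ hχ
    obtain ⟨V₁, _, _, _, ρ₁, _, rfl⟩ := id h1
    obtain ⟨V₂, _, _, _, ρ₂, _, rfl⟩ := id h2
    obtain ⟨W, _, _, _, σ, _, rfl⟩ := hχ
    obtain ⟨n, hn⟩ := B_nat
      (Representation.tprod (ρ₁.comp (MonoidHom.fst X Y)) (ρ₂.comp (MonoidHom.snd X Y))) σ
    refine ⟨n, ?_⟩
    rw [char_tensor] at hn
    rw [Int.cast_natCast, ← hn]
    rfl
  · rw [B_ep, B_irr h1 h1, B_irr h2 h2, if_pos rfl, if_pos rfl, mul_one]
  · obtain ⟨m, -, hm⟩ := deg_pos h1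
    obtain ⟨n, -, hn⟩ := deg_pos h2
    refine ⟨m * n, ?_⟩
    change θ 1 * ψ 1 = _
    rw [hm, hn]
    push_cast
    ring

theorem ep_inj {θ θ' : X → ℂ} {ψ ψ' : Y → ℂ} (h1 : IsIrrChar θ) (h2 : IsIrrChar ψ)
    (h3 : IsIrrChar θ') (h4 : IsIrrChar ψ') (h : ep θ ψ = ep θ' ψ') : θ = θ' ∧ ψ = ψ' := by
  have e := B_ep θ θ' ψ ψ'
  rw [← h, B_irr (ep_irr h1 h2) (ep_irr h1 h2), if_pos rfl, B_irr h1 h3, B_irr h2 h4] at e
  by_cases c1 : θ = θ'
  · by_cases c2 : ψ = ψ'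
    · exact ⟨c1, c2⟩
    · rw [if_neg c2, mul_zero] at e
      exact absurd e one_ne_zero
  · rw [if_neg c1, zero_mul] at e
    exact absurd e one_ne_zero

theorem ep_cover {χ : X × Y → ℂ} (hχ : IsIrrChar χ) :
    ∃ θ ψ, IsIrrChar θ ∧ IsIrrChar ψ ∧ χ = ep θ ψ := by
  by_contra hcon
  push Not at hcon
  have hcl := hχ.isClass
  have hz : ∀ θ ψ, IsIrrChar θ → IsIrrChar ψ → B χ (ep θ ψ) = 0 := fun θ ψ h1 h2 => by
    rw [B_irr hχ (ep_irr h1 h2), if_neg (hcon θ ψ h1 h2)]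
  have hXY : ((Nat.card (X × Y) : ℂ)) ≠ 0 := cardG_ne
  have hsum : ∀ θ ψ, IsIrrChar θ → IsIrrChar ψ →
      ∑ a : X, ∑ b : Y, χ (a, b) * (θ a⁻¹ * ψ b⁻¹) = 0 := by
    intro θ ψ h1 h2
    have h3 := hz θ ψ h1 h2
    unfold B at h3
    rw [Fintype.sum_prod_type] at h3
    exact (mul_eq_zero.mp h3).resolve_left (inv_ne_zero hXY)
  have h1 : ∀ θ : X → ℂ, IsIrrChar θ → (fun b => ∑ a : X, χ (a, b) * θ a⁻¹) = 0 := by
    intro θ hθ
    apply class_eq_zero
    · intro g y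
      refine Finset.sum_congr rfl fun a _ => ?_
      have h2 := hcl (a, g) (1, y)
      simp only [Prod.mk_mul_mk, Prod.inv_mk, one_mul, inv_one, mul_one] at h2
      rw [h2]
    · intro ψ hψ
      unfold B
      have h2 := hsum θ ψ hθ hψ
      rw [Finset.sum_comm] at h2
      have h3 : ∑ g : Y, (∑ a : X, χ (a, g) * θ a⁻¹) * ψ g⁻¹ =
          ∑ y : Y, ∑ x : X, χ (x, y) * (θ x⁻¹ * ψ y⁻¹) := by
        refine Finset.sum_congr rfl fun y _ => ?_
        rw [Finset.sum_mul]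
        exact Finset.sum_congr rfl fun x _ => by ring
      rw [h3, h2, mul_zero]
  have h2 : ∀ b : Y, (fun a => χ (a, b)) = 0 := by
    intro b
    apply class_eq_zero
    · intro g y
      have h2 := hcl (g, b) (y, 1)
      simp only [Prod.mk_mul_mk, Prod.inv_mk, one_mul, inv_one, mul_one] at h2
      exact h2
    · intro θ hθ
      unfold B
      have h3 := congrFun (h1 θ hθ) b
      simp only [Pi.zero_apply] at h3
      rw [h3, mul_zero]
  have h3 : χ = 0 := by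
    funext ⟨a, b⟩
    exact congrFun (h2 b) a
  have h4 := B_irr hχ hχ
  rw [if_pos rfl, h3] at h4
  simp [B] at h4

theorem Irr_prod : Irr (X × Y) = (Irr X ×ˢ Irr Y).image fun t => ep t.1 t.2 := by
  ext χ
  simp only [Finset.mem_image, Finset.mem_product, mem_Irr, Prod.exists]
  constructor
  · intro h
    obtain ⟨θ, ψ, h1, h2, rfl⟩ := ep_cover h
    exact ⟨θ, ψ, ⟨h1, h2⟩, rfl⟩
  · rintro ⟨θ, ψ, ⟨h1, h2⟩, rfl⟩
    exact ep_irr h1 h2

end prod

/-- the `p`-part of the degree of an irreducible character -/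
theorem deg_le {p : ℕ} {X : Type} [Group X] [Fintype X] {χ : X → ℂ} (h : IsIrrChar χ) {n : ℕ}
    (hn : χ 1 = n) : n.factorization p ≤ (Nat.card X).factorization p := by
  have h1 : n ∣ Nat.card X := deg_dvd h hn
  exact (Nat.factorization_le_iff_dvd (by
    rintro rfl
    exact absurd (Nat.eq_zero_of_zero_dvd h1) Nat.card_pos.ne') Nat.card_pos.ne').mpr h1 p

theorem dz_iff {p : ℕ} {X : Type} [Group X] [Fintype X] {χ : X → ℂ} {n : ℕ}
    (hn : χ 1 = n) : DZ p χ ↔ n.factorization p = (Nat.card X).factorization p := by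
  constructor
  · rintro ⟨m, hm, h⟩
    have : m = n := by exact_mod_cast hm.symm.trans hn
    rwa [this] at h
  · intro h
    exact ⟨n, hn, h⟩

section dz

variable {p : ℕ} {X Y : Type} [Group X] [Group Y] [Fintype X] [Fintype Y]

theorem dz_ep {θ : X → ℂ} {ψ : Y → ℂ} (h1 : IsIrrChar θ) (h2 : IsIrrChar ψ) :
    DZ p (ep θ ψ) ↔ DZ p θ ∧ DZ p ψ := by
  obtain ⟨m, hm0, hm⟩ := deg_pos h1
  obtain ⟨n, hn0, hn⟩ := deg_pos h2
  have h3 : ep θ ψ 1 = ((m * n : ℕ) : ℂ) := by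
    change θ 1 * ψ 1 = _
    rw [hm, hn]
    push_cast
    rfl
  rw [dz_iff h3, dz_iff hm, dz_iff hn, Nat.card_prod, Nat.factorization_mul hm0.ne' hn0.ne',
    Nat.factorization_mul Nat.card_pos.ne' Nat.card_pos.ne', Finsupp.add_apply, Finsupp.add_apply]
  have h4 := deg_le (p := p) h1 hm
  have h5 := deg_le (p := p) h2 hn
  omega

theorem numDefectZero_prod (p : ℕ) [Fact p.Prime] (X Y : Type) [Group X] [Group Y] [Finite X] [Finite Y] :
    numDefectZero p (X × Y) = numDefectZero p X * numDefectZero p Y := by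
  have := Fintype.ofFinite X
  have := Fintype.ofFinite Y
  rw [numDefectZero_eq, numDefectZero_eq, numDefectZero_eq, Irr_prod, Finset.filter_image,
    Finset.card_image_of_injOn, ← Finset.card_product]
  · congr 1
    ext ⟨θ, ψ⟩
    simp only [Finset.mem_filter, Finset.mem_product, mem_Irr]
    constructor
    · rintro ⟨⟨h1, h2⟩, h3⟩
      rw [dz_ep h1 h2] at h3
      exact ⟨⟨h1, h3.1⟩, h2, h3.2⟩
    · rintro ⟨⟨h1, h3⟩, h2, h4⟩
      exact ⟨⟨h1, h2⟩, (dz_ep h1 h2).mpr ⟨h3, h4⟩⟩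
  · rintro ⟨θ, ψ⟩ h ⟨θ', ψ'⟩ h' he
    simp only [Finset.coe_filter, Finset.mem_product, mem_Irr, Set.mem_setOf_eq] at h h'
    obtain ⟨e1, e2⟩ := ep_inj h.1.1 h.1.2 h'.1.1 h'.1.2 he
    rw [e1, e2]

theorem fact_wr (hp2 : p ≠ 2) (hp : p.Prime) : (Nat.card (Wr X)).factorization p =
    (Nat.card X).factorization p + (Nat.card X).factorization p := by
  have h0 : Nat.card X ≠ 0 := Nat.card_pos.ne'
  rw [Wr.card, Nat.factorization_mul two_ne_zero (pow_ne_zero _ h0), pow_two,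
    Nat.factorization_mul h0 h0, Finsupp.add_apply, Finsupp.add_apply]
  have : (2 : ℕ).factorization p = 0 := by
    apply Nat.factorization_eq_zero_of_not_dvd
    intro h
    exact hp2 ((Nat.prime_dvd_prime_iff_eq hp Nat.prime_two).mp h)
  omega

theorem dz_ind {θ ψ : X → ℂ} (hp2 : p ≠ 2) (hp : p.Prime) (h1 : IsIrrChar θ) (h2 : IsIrrChar ψ) :
    DZ p (ind2 θ ψ) ↔ DZ p θ ∧ DZ p ψ := by
  obtain ⟨m, hm0, hm⟩ := deg_pos h1
  obtain ⟨n, hn0, hn⟩ := deg_pos h2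
  have h3 : ind2 θ ψ 1 = ((2 * (m * n) : ℕ) : ℂ) := by
    change θ 1 * ψ 1 + ψ 1 * θ 1 = _
    rw [hm, hn]
    push_cast
    ring
  have h6 : (2 : ℕ).factorization p = 0 := by
    apply Nat.factorization_eq_zero_of_not_dvd
    intro h
    exact hp2 ((Nat.prime_dvd_prime_iff_eq hp Nat.prime_two).mp h)
  rw [dz_iff h3, dz_iff hm, dz_iff hn, fact_wr hp2 hp,
    Nat.factorization_mul two_ne_zero (mul_ne_zero hm0.ne' hn0.ne'),
    Nat.factorization_mul hm0.ne' hn0.ne', Finsupp.add_apply, Finsupp.add_apply, h6]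
  have h4 := deg_le (p := p) h1 hm
  have h5 := deg_le (p := p) h2 hn
  omega

theorem dz_ext {θ : X → ℂ} (hp2 : p ≠ 2) (hp : p.Prime) (h1 : IsIrrChar θ) (ε : ℂ) :
    DZ p (ext2 ε θ) ↔ DZ p θ := by
  obtain ⟨m, hm0, hm⟩ := deg_pos h1
  have h3 : ext2 ε θ 1 = ((m * m : ℕ) : ℂ) := by
    change θ 1 * θ 1 = _
    rw [hm]
    push_cast
    ring
  rw [dz_iff h3, dz_iff hm, fact_wr hp2 hp, Nat.factorization_mul hm0.ne' hm0.ne',
    Finsupp.add_apply]
  have h4 := deg_le (p := p) h1 hm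
  omega

theorem numDefectZero_wr [hpf : Fact p.Prime] (hp2 : p ≠ 2) (X : Type) [Group X] [Finite X] :
    2 * numDefectZero p (Wr X) = numDefectZero p X ^ 2 + 3 * numDefectZero p X := by
  have hp := hpf.out
  have := Fintype.ofFinite X
  rw [numDefectZero_eq, numDefectZero_eq, count]
  set S := (Irr X).filter fun chi => DZ p chi with hS
  have e1 : ((Irr X).offDiag.filter fun t => DZ p (ind2 t.1 t.2)) = S.offDiag := by
    ext ⟨θ, ψ⟩
    simp only [hS, Finset.mem_filter, Finset.mem_offDiag, mem_Irr]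
    constructor
    · rintro ⟨⟨h1, h2, hne⟩, h3⟩
      rw [dz_ind hp2 hp h1 h2] at h3
      exact ⟨⟨h1, h3.1⟩, ⟨h2, h3.2⟩, hne⟩
    · rintro ⟨⟨h1, h3⟩, ⟨h2, h4⟩, hne⟩
      exact ⟨⟨h1, h2, hne⟩, (dz_ind hp2 hp h1 h2).mpr ⟨h3, h4⟩⟩
  have e2 : ∀ ε : ℂ, ((Irr X).filter fun θ => DZ p (ext2 ε θ)) = S := by
    intro ε
    apply Finset.filter_congr
    intro θ hθ
    exact dz_ext hp2 hp (mem_Irr.mp hθ) ε
  rw [e1, e2, e2, Finset.offDiag_card]
  have : S.card ≤ S.card * S.card := Nat.le_mul_self _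
  zify [this]
  ring

end dz

end Pool.Agent.Q149.WA
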