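import Pool.Agent.Q149.WA.Prod

/-!
# Regular classes of wreath products with a group of order two
-/

set_option autoImplicit false

open scoped Classical

noncomputable section

namespace Pool.Agent.Q149.WA

open Pool.Agent.Q90.WR
open Pool.Agent.Y63.AWC (numRegularClasses card_mul_numRegularClasses fiber_sum)

variable {p : ℕ} {G : Type} [Group G]

theorem mul_ff (a b c d : G) :
    (⟨a, b, false⟩ : Wr G) * ⟨c, d, false⟩ = ⟨a * c, b * d, false⟩ := rfl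

theorem mul_ft (a b c d : G) :
    (⟨a, b, false⟩ : Wr G) * ⟨c, d, true⟩ = ⟨a * c, b * d, true⟩ := rfl

theorem mul_tf (a b c d : G) :
    (⟨a, b, true⟩ : Wr G) * ⟨c, d, false⟩ = ⟨a * d, b * c, true⟩ := rfl

theorem mul_tt (a b c d : G) :
    (⟨a, b, true⟩ : Wr G) * ⟨c, d, true⟩ = ⟨a * d, b * c, false⟩ := rfl

theorem dvd_order_false (hp : p.Prime) (a b : G) :
    p ∣ orderOf (⟨a, b, false⟩ : Wr G) ↔ p ∣ orderOf a ∨ p ∣ orderOf b := by
  have hinj : Function.Injective (Wr.base G) := by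
    rintro ⟨a, b⟩ ⟨c, d⟩ h
    have h1 : a = c := congrArg Wr.a h
    have h2 : b = d := congrArg Wr.b h
    rw [h1, h2]
  have h : orderOf (⟨a, b, false⟩ : Wr G) = orderOf (a, b) :=
    orderOf_injective (Wr.base G) hinj (a, b)
  rw [h, Prod.orderOf_mk, hp.dvd_lcm]

theorem dvd_order_true (hp : p.Prime) (hp2 : p ≠ 2) (a b : G) :
    p ∣ orderOf (⟨a, b, true⟩ : Wr G) ↔ p ∣ orderOf (a * b) := by
  have h1 : (⟨a, b, true⟩ : Wr G) ^ 2 = ⟨a * b, b * a, false⟩ := by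
    rw [pow_two, mul_tt]
  have h2 : p ∣ orderOf (⟨a, b, true⟩ : Wr G) ↔ p ∣ orderOf ((⟨a, b, true⟩ : Wr G) ^ 2) := by
    constructor
    · intro h
      have h3 : orderOf (⟨a, b, true⟩ : Wr G) ∣ 2 * orderOf ((⟨a, b, true⟩ : Wr G) ^ 2) := by
        apply orderOf_dvd_of_pow_eq_one
        rw [pow_mul, pow_orderOf_eq_one]
      rcases (Nat.Prime.dvd_mul hp).mp (h.trans h3) with h4 | h4
      · exact absurd ((Nat.prime_dvd_prime_iff_eq hp Nat.prime_two).mp h4) hp2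
      · exact h4
    · intro h
      exact h.trans (orderOf_pow_dvd 2)
  rw [h2, h1, dvd_order_false hp]
  have h3 : orderOf (b * a) = orderOf (a * b) := by
    have h4 : b * a = a⁻¹ * (a * b) * a⁻¹⁻¹ := by group
    rw [h4]
    exact orderOf_injective (MulAut.conj a⁻¹).toMonoidHom (MulAut.conj a⁻¹).injective (a * b)
  rw [h3, or_self]

/-- commuting pairs whose first element is `p`-regular -/
def CP (p : ℕ) (G : Type) [Group G] : Type :=
  {q : G × G // ¬ p ∣ orderOf q.1 ∧ q.1 * q.2 = q.2 * q.1}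

/-- the pairs of given type -/
def CPs (p : ℕ) (G : Type) [Group G] (s t : Bool) : Type :=
  {q : Wr G × Wr G // (¬ p ∣ orderOf q.1 ∧ q.1 * q.2 = q.2 * q.1) ∧ (q.1.s, q.2.s) = (s, t)}

theorem card_ff (hp : p.Prime) : Nat.card (CPs p G false false) = Nat.card (CP p G) ^ 2 := by
  have key : ∀ a b c d : G, (¬ p ∣ orderOf (⟨a, b, false⟩ : Wr G) ∧
      (⟨a, b, false⟩ : Wr G) * ⟨c, d, false⟩ = ⟨c, d, false⟩ * ⟨a, b, false⟩) ↔
      ((¬ p ∣ orderOf a ∧ a * c = c * a) ∧ (¬ p ∣ orderOf b ∧ b * d = d * b)) := by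
    intro a b c d
    rw [dvd_order_false hp, mul_ff, mul_ff, Wr.mk.injEq]
    tauto
  rw [pow_two, ← Nat.card_prod]
  refine Nat.card_congr
    { toFun := fun q => (⟨(q.1.1.a, q.1.2.a), ?_⟩, ⟨(q.1.1.b, q.1.2.b), ?_⟩)
      invFun := fun r => ⟨(⟨r.1.1.1, r.2.1.1, false⟩, ⟨r.1.1.2, r.2.1.2, false⟩),
        (key _ _ _ _).mpr ⟨r.1.2, r.2.2⟩, rfl⟩
      left_inv := ?_
      right_inv := fun _ => rfl }
  · obtain ⟨⟨⟨a, b, s⟩, ⟨c, d, t⟩⟩, h, h2⟩ := q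
    simp only [Prod.mk.injEq] at h2
    obtain ⟨rfl, rfl⟩ := h2
    exact ((key a b c d).mp h).1
  · obtain ⟨⟨⟨a, b, s⟩, ⟨c, d, t⟩⟩, h, h2⟩ := q
    simp only [Prod.mk.injEq] at h2
    obtain ⟨rfl, rfl⟩ := h2
    exact ((key a b c d).mp h).2
  · rintro ⟨⟨⟨a, b, s⟩, ⟨c, d, t⟩⟩, h, h2⟩
    simp only [Prod.mk.injEq] at h2
    obtain ⟨rfl, rfl⟩ := h2
    rfl

theorem card_ft (hp : p.Prime) : Nat.card (CPs p G false true) = Nat.card G * Nat.card (CP p G) := by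
  have key : ∀ a b c d : G, (¬ p ∣ orderOf (⟨a, b, false⟩ : Wr G) ∧
      (⟨a, b, false⟩ : Wr G) * ⟨c, d, true⟩ = ⟨c, d, true⟩ * ⟨a, b, false⟩) ↔
      (¬ p ∣ orderOf a ∧ a * (c * d) = (c * d) * a) ∧ b = c⁻¹ * a * c := by
    intro a b c d
    rw [dvd_order_false hp, mul_ft, mul_tf, Wr.mk.injEq]
    constructor
    · rintro ⟨h1, h2, h3, -⟩
      have e1 : b = c⁻¹ * a * c := by rw [mul_assoc, h2]; group
      subst e1
      refine ⟨⟨fun h => h1 (Or.inl h), ?_⟩, rfl⟩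
      have h4 := congrArg (fun x => c * x) h3
      calc a * (c * d) = c * (c⁻¹ * a * c * d) := by group
        _ = c * (d * a) := h4
        _ = _ := by group
    · rintro ⟨⟨h1, h2⟩, rfl⟩
      refine ⟨?_, by group, ?_, rfl⟩
      · have h3 : orderOf (c⁻¹ * a * c) = orderOf a := by
          have := orderOf_injective (MulAut.conj c⁻¹).toMonoidHom (MulAut.conj c⁻¹).injective a
          simpa using this
        rw [h3, or_self]
        exact h1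
      · calc c⁻¹ * a * c * d = c⁻¹ * (a * (c * d)) := by group
          _ = c⁻¹ * (c * d * a) := by rw [h2]
          _ = _ := by group
  rw [← Nat.card_prod]
  refine Nat.card_congr
    { toFun := fun q => (q.1.2.a, ⟨(q.1.1.a, q.1.2.a * q.1.2.b), ?_⟩)
      invFun := fun r => ⟨(⟨r.2.1.1, r.1⁻¹ * r.2.1.1 * r.1, false⟩, ⟨r.1, r.1⁻¹ * r.2.1.2, true⟩),
        (key _ _ _ _).mpr ⟨?_, rfl⟩, rfl⟩
      left_inv := ?_
      right_inv := ?_ }
  · obtain ⟨⟨⟨a, b, s⟩, ⟨c, d, t⟩⟩, h, h2⟩ := q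
    simp only [Prod.mk.injEq] at h2
    obtain ⟨rfl, rfl⟩ := h2
    exact ((key a b c d).mp h).1
  · rw [mul_inv_cancel_left]
    exact r.2.2
  · rintro ⟨⟨⟨a, b, s⟩, ⟨c, d, t⟩⟩, h, h2⟩
    simp only [Prod.mk.injEq] at h2
    obtain ⟨rfl, rfl⟩ := h2
    have h3 := ((key a b c d).mp h).2
    subst h3
    apply Subtype.ext
    simp
  · rintro ⟨c, ⟨⟨a, e⟩, h⟩⟩
    simp

theorem card_tf (hp : p.Prime) (hp2 : p ≠ 2) :
    Nat.card (CPs p G true false) = Nat.card G * Nat.card (CP p G) := by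
  have key : ∀ a b c d : G, (¬ p ∣ orderOf (⟨a, b, true⟩ : Wr G) ∧
      (⟨a, b, true⟩ : Wr G) * ⟨c, d, false⟩ = ⟨c, d, false⟩ * ⟨a, b, true⟩) ↔
      (¬ p ∣ orderOf (a * b) ∧ (a * b) * c = c * (a * b)) ∧ d = a⁻¹ * c * a := by
    intro a b c d
    rw [dvd_order_true hp hp2, mul_ft, mul_tf, Wr.mk.injEq]
    constructor
    · rintro ⟨h1, h2, h3, -⟩
      have e1 : d = a⁻¹ * c * a := by rw [mul_assoc, ← h2]; group
      subst e1
      refine ⟨⟨h1, ?_⟩, rfl⟩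
      calc a * b * c = a * (b * c) := by group
        _ = a * (a⁻¹ * c * a * b) := by rw [h3]
        _ = _ := by group
    · rintro ⟨⟨h1, h2⟩, rfl⟩
      refine ⟨h1, by group, ?_, rfl⟩
      calc b * c = a⁻¹ * (a * b * c) := by group
          _ = a⁻¹ * (c * (a * b)) := by rw [h2]
          _ = _ := by group
  rw [← Nat.card_prod]
  refine Nat.card_congr
    { toFun := fun q => (q.1.1.a, ⟨(q.1.1.a * q.1.1.b, q.1.2.a), ?_⟩)
      invFun := fun r => ⟨(⟨r.1, r.1⁻¹ * r.2.1.1, true⟩, ⟨r.2.1.2, r.1⁻¹ * r.2.1.2 * r.1, false⟩),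
        (key _ _ _ _).mpr ⟨?_, rfl⟩, rfl⟩
      left_inv := ?_
      right_inv := ?_ }
  · obtain ⟨⟨⟨a, b, s⟩, ⟨c, d, t⟩⟩, h, h2⟩ := q
    simp only [Prod.mk.injEq] at h2
    obtain ⟨rfl, rfl⟩ := h2
    exact ((key a b c d).mp h).1
  · rw [mul_inv_cancel_left]
    exact r.2.2
  · rintro ⟨⟨⟨a, b, s⟩, ⟨c, d, t⟩⟩, h, h2⟩
    simp only [Prod.mk.injEq] at h2
    obtain ⟨rfl, rfl⟩ := h2
    have h3 := ((key a b c d).mp h).2
    subst h3
    apply Subtype.ext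
    simp
  · rintro ⟨c, ⟨⟨a, e⟩, h⟩⟩
    simp

theorem card_tt : Nat.card (CPs p G true true) = Nat.card (CPs p G true false) := by
  refine Nat.card_congr
    { toFun := fun q => ⟨(q.1.1, q.1.1 * q.1.2), ⟨q.2.1.1, ?_⟩, ?_⟩
      invFun := fun q => ⟨(q.1.1, q.1.1⁻¹ * q.1.2), ⟨q.2.1.1, ?_⟩, ?_⟩
      left_inv := ?_
      right_inv := ?_ }
  · change q.1.1 * (q.1.1 * q.1.2) = q.1.1 * q.1.2 * q.1.1
    conv_lhs => rw [q.2.1.2]
    rw [mul_assoc]
  · obtain ⟨⟨⟨a, b, s⟩, ⟨c, d, t⟩⟩, h, h2⟩ := q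
    simp only [Prod.mk.injEq] at h2
    obtain ⟨rfl, rfl⟩ := h2
    rfl
  · change q.1.1 * (q.1.1⁻¹ * q.1.2) = q.1.1⁻¹ * q.1.2 * q.1.1
    rw [mul_inv_cancel_left, mul_assoc, ← q.2.1.2, inv_mul_cancel_left]
  · obtain ⟨⟨⟨a, b, s⟩, ⟨c, d, t⟩⟩, h, h2⟩ := q
    simp only [Prod.mk.injEq] at h2
    obtain ⟨rfl, rfl⟩ := h2
    rfl
  · rintro ⟨⟨x, y⟩, h⟩
    apply Subtype.ext
    simp
  · rintro ⟨⟨x, y⟩, h⟩
    apply Subtype.ext
    simp

/-- the number of `p`-regular classes of `G ≀ C₂` -/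
theorem numRegularClasses_wr [Finite G] (hp : p.Prime) (hp2 : p ≠ 2) :
    2 * numRegularClasses p (Wr G) = numRegularClasses p G ^ 2 + 3 * numRegularClasses p G := by
  have h1 := card_mul_numRegularClasses p (Wr G)
  have h2 : Nat.card G * numRegularClasses p G = Nat.card (CP p G) :=
    card_mul_numRegularClasses p G
  rw [← fiber_sum (fun q : Wr G × Wr G => ¬ p ∣ orderOf q.1 ∧ q.1 * q.2 = q.2 * q.1)
    (fun q => (q.1.s, q.2.s)), Fintype.sum_prod_type] at h1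
  simp only [Fintype.sum_bool] at h1
  have e1 : Nat.card {a : Wr G × Wr G // (¬ p ∣ orderOf a.1 ∧ a.1 * a.2 = a.2 * a.1) ∧
      (a.1.s, a.2.s) = (true, true)} = Nat.card G * Nat.card (CP p G) :=
    (card_tt (p := p) (G := G)).trans (card_tf hp hp2)
  have e2 : Nat.card {a : Wr G × Wr G // (¬ p ∣ orderOf a.1 ∧ a.1 * a.2 = a.2 * a.1) ∧
      (a.1.s, a.2.s) = (true, false)} = Nat.card G * Nat.card (CP p G) := card_tf hp hp2
  have e3 : Nat.card {a : Wr G × Wr G // (¬ p ∣ orderOf a.1 ∧ a.1 * a.2 = a.2 * a.1) ∧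
      (a.1.s, a.2.s) = (false, true)} = Nat.card G * Nat.card (CP p G) := card_ft hp
  have e4 : Nat.card {a : Wr G × Wr G // (¬ p ∣ orderOf a.1 ∧ a.1 * a.2 = a.2 * a.1) ∧
      (a.1.s, a.2.s) = (false, false)} = Nat.card (CP p G) ^ 2 := card_ff hp
  rw [e1, e2, e3, e4, ← h2, Wr.card] at h1
  have h3 : 0 < Nat.card G ^ 2 := pow_pos Nat.card_pos _
  apply Nat.eq_of_mul_eq_mul_left h3
  calc Nat.card G ^ 2 * (2 * numRegularClasses p (Wr G)) =
      2 * Nat.card G ^ 2 * numRegularClasses p (Wr G) := by ring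
    _ = _ := by
      rw [h1]
      ring

end Pool.Agent.Q149.WA
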