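import Pool.Agent.Q149.WA.Reg

/-!
# Local counts of `p`-subgroups of wreath products with a group of order two
-/

set_option autoImplicit false

open scoped Classical

noncomputable section

namespace Pool.Agent.Q149.WA

open Pool.Agent.Q90.WR
open Pool.Agent.Y63.AWC (loc loc_map normalizer_map numDefectZero numDefectZero_congr
  ConjugateSubgroups)

variable {p : ℕ} {G : Type} [Group G]

/-- a group containing `Q` properly and normalised by the normalizer of `Q` -/
theorem loc_zero {Γ : Type} [Group Γ] [Finite Γ] [Fact p.Prime] {Q D : Subgroup Γ}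
    (hD : IsPGroup p D) (hle : Q ≤ D) (hne : Q ≠ D)
    (hN : Subgroup.normalizer (Q : Set Γ) ≤ Subgroup.normalizer (D : Set Γ)) : loc p Q = 0 := by
  have hnil : Group.IsNilpotent D := hD.isNilpotent
  have hlt : Q.subgroupOf D < ⊤ := by
    rw [lt_top_iff_ne_top, Ne, Subgroup.subgroupOf_eq_top]
    intro h
    exact hne (le_antisymm hle h)
  obtain ⟨x, hx1, hx2⟩ := SetLike.exists_of_lt
    (Group.normalizerCondition_of_isNilpotent (Q.subgroupOf D) hlt)
  rw [Subgroup.mem_normalizer_iff] at hx1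
  have hxN : (x : Γ) ∈ Subgroup.normalizer (Q : Set Γ) := by
    rw [Subgroup.mem_normalizer_iff]
    intro h
    constructor
    · intro hh
      exact (hx1 ⟨h, hle hh⟩).1 hh
    · intro hh
      have h3 : h ∈ D := by
        have h4 : h = (x : Γ)⁻¹ * ((x : Γ) * h * (x : Γ)⁻¹) * (x : Γ) := by group
        rw [h4]
        exact D.mul_mem (D.mul_mem (D.inv_mem x.2) (hle hh)) x.2
      exact (hx1 ⟨h, h3⟩).2 hh
  set N := Subgroup.normalizer (Q : Set Γ) with hNdef
  have : Fintype (N ⧸ Q.subgroupOf N) := Fintype.ofFinite _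
  have hnorm : (D.subgroupOf N).Normal :=
    ⟨fun n hn g => (Subgroup.mem_normalizer_iff.1 (hN g.2) n).1 hn⟩
  unfold loc
  refine Pool.Agent.Y63.KR.defectZero_normal
    (P := (D.subgroupOf N).map (QuotientGroup.mk' (Q.subgroupOf N)))
    ((hD.comap_of_injective N.subtype Subtype.val_injective).map _)
    (hnorm.map _ (QuotientGroup.mk'_surjective _)) ?_
  intro hbot
  have h5 : D.subgroupOf N ≤ (QuotientGroup.mk' (Q.subgroupOf N)).ker :=
    (Subgroup.map_eq_bot_iff _).mp hbot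
  rw [QuotientGroup.ker_mk'] at h5
  have h6 : (⟨x, hxN⟩ : N) ∈ Q.subgroupOf N := h5 x.2
  exact hx2 h6

/-- the subgroup `A × B` of the base -/
def ps (A B : Subgroup G) : Subgroup (Wr G) where
  carrier := {x | x.s = false ∧ x.a ∈ A ∧ x.b ∈ B}
  one_mem' := ⟨rfl, A.one_mem, B.one_mem⟩
  mul_mem' := by
    rintro ⟨a, b, s⟩ ⟨a', b', s'⟩ ⟨h1, h2, h3⟩ ⟨h4, h5, h6⟩
    simp only at h1 h2 h3 h4 h5 h6
    subst h1 h4
    exact ⟨rfl, A.mul_mem h2 h5, B.mul_mem h3 h6⟩
  inv_mem' := by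
    rintro ⟨a, b, s⟩ ⟨h1, h2, h3⟩
    simp only at h1 h2 h3
    subst h1
    exact ⟨rfl, A.inv_mem h2, B.inv_mem h3⟩

theorem mem_ps {A B : Subgroup G} {x : Wr G} : x ∈ ps A B ↔ x.s = false ∧ x.a ∈ A ∧ x.b ∈ B :=
  Iff.rfl

theorem ps_self (A : Subgroup G) : ps A A = dbl A := rfl

theorem isPGroup_ps {A B : Subgroup G} (hA : IsPGroup p A) (hB : IsPGroup p B) :
    IsPGroup p (ps A B) := by
  rintro ⟨x, h1, h2, h3⟩
  obtain ⟨a, b, s⟩ := x
  simp only at h1 h2 h3
  subst h1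
  obtain ⟨m, hm⟩ := hA ⟨a, h2⟩
  obtain ⟨n, hn⟩ := hB ⟨b, h3⟩
  refine ⟨m + n, ?_⟩
  have hpow : ∀ k : ℕ, (⟨a, b, false⟩ : Wr G) ^ k = ⟨a ^ k, b ^ k, false⟩ := by
    intro k
    induction k with
    | zero => simp [Wr.one_def]
    | succ k ih => rw [pow_succ, ih, Wr.mk_false_mul, pow_succ, pow_succ]
  apply Subtype.ext
  have ha : a ^ p ^ m = 1 := congrArg Subtype.val hm
  have hb : b ^ p ^ n = 1 := congrArg Subtype.val hn
  change (⟨a, b, false⟩ : Wr G) ^ p ^ (m + n) = 1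
  rw [hpow, pow_add, pow_mul, ha, one_pow, mul_comm, pow_mul, hb, one_pow]
  rfl

theorem mul_s (x y : Wr G) : (x * y).s = xor x.s y.s := by
  obtain ⟨a, b, s⟩ := x
  obtain ⟨c, d, t⟩ := y
  cases s <;> cases t <;> rfl

theorem pow_odd_s {x : Wr G} (hx : x.s = true) (n : ℕ) : (x ^ (2 * n + 1)).s = true := by
  induction n with
  | zero => simpa using hx
  | succ n ih =>
    rw [show 2 * (n + 1) + 1 = (2 * n + 1) + 1 + 1 by ring, pow_succ, pow_succ, mul_s, mul_s, ih,
      hx]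
    rfl

/-- for odd `p` the `p`-subgroups are contained in the base -/
theorem s_false (hp : p.Prime) (hp2 : p ≠ 2) {Q : Subgroup (Wr G)} (hQ : IsPGroup p Q) {x : Wr G}
    (hx : x ∈ Q) : x.s = false := by
  by_contra h
  have h : x.s = true := by simpa using h
  obtain ⟨k, hk⟩ := hQ ⟨x, hx⟩
  have h1 : x ^ p ^ k = 1 := congrArg Subtype.val hk
  obtain ⟨n, hn⟩ : Odd (p ^ k) := (hp.odd_of_ne_two hp2).pow
  have h2 := pow_odd_s h n
  rw [← hn, h1] at h2
  exact Bool.false_ne_true h2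

/-- first projection -/
def pA (Q : Subgroup (Wr G)) : Subgroup G := (Q.comap (Wr.base G)).map (MonoidHom.fst G G)

/-- second projection -/
def pB (Q : Subgroup (Wr G)) : Subgroup G := (Q.comap (Wr.base G)).map (MonoidHom.snd G G)

theorem mem_pA {Q : Subgroup (Wr G)} {a : G} : a ∈ pA Q ↔ ∃ b, (⟨a, b, false⟩ : Wr G) ∈ Q := by
  constructor
  · rintro ⟨⟨a, b⟩, h, rfl⟩
    exact ⟨b, h⟩
  · rintro ⟨b, h⟩
    exact ⟨(a, b), h, rfl⟩

theorem mem_pB {Q : Subgroup (Wr G)} {b : G} : b ∈ pB Q ↔ ∃ a, (⟨a, b, false⟩ : Wr G) ∈ Q := by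
  constructor
  · rintro ⟨⟨a, b⟩, h, rfl⟩
    exact ⟨a, h⟩
  · rintro ⟨a, h⟩
    exact ⟨(a, b), h, rfl⟩

theorem base_inj : Function.Injective (Wr.base G) := by
  rintro ⟨a, b⟩ ⟨c, d⟩ h
  have h1 : a = c := congrArg Wr.a h
  have h2 : b = d := congrArg Wr.b h
  rw [h1, h2]

theorem isPGroup_pA {Q : Subgroup (Wr G)} (hQ : IsPGroup p Q) : IsPGroup p (pA Q) :=
  (hQ.comap_of_injective (Wr.base G) base_inj).map _

theorem isPGroup_pB {Q : Subgroup (Wr G)} (hQ : IsPGroup p Q) : IsPGroup p (pB Q) :=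
  (hQ.comap_of_injective (Wr.base G) base_inj).map _

theorem le_ps (hp : p.Prime) (hp2 : p ≠ 2) {Q : Subgroup (Wr G)} (hQ : IsPGroup p Q) :
    Q ≤ ps (pA Q) (pB Q) := by
  rintro ⟨a, b, s⟩ hx
  have h := s_false hp hp2 hQ hx
  simp only at h
  subst h
  exact ⟨rfl, mem_pA.mpr ⟨b, hx⟩, mem_pB.mpr ⟨a, hx⟩⟩

theorem conj_f (a b c d : G) : (⟨c, d, false⟩ : Wr G) * ⟨a, b, false⟩ * ⟨c, d, false⟩⁻¹ =
    ⟨c * a * c⁻¹, d * b * d⁻¹, false⟩ := rfl

theorem conj_t (a b c d : G) : (⟨c, d, true⟩ : Wr G) * ⟨a, b, false⟩ * ⟨c, d, true⟩⁻¹ =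
    ⟨c * b * c⁻¹, d * a * d⁻¹, false⟩ := rfl

theorem normalizer_le_ps (Q : Subgroup (Wr G)) :
    Subgroup.normalizer (Q : Set (Wr G)) ≤
      Subgroup.normalizer (ps (pA Q) (pB Q) : Set (Wr G)) := by
  have key : ∀ n ∈ Subgroup.normalizer (Q : Set (Wr G)), ∀ h ∈ ps (pA Q) (pB Q),
      n * h * n⁻¹ ∈ ps (pA Q) (pB Q) := by
    rintro ⟨c, d, t⟩ hn ⟨a, b, s⟩ ⟨h1, h2, h3⟩
    simp only at h1 h2 h3
    subst h1
    obtain ⟨b', hb'⟩ := mem_pA.mp h2
    obtain ⟨a', ha'⟩ := mem_pB.mp h3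
    have h4 := (Subgroup.mem_normalizer_iff.mp hn _).mp hb'
    have h5 := (Subgroup.mem_normalizer_iff.mp hn _).mp ha'
    cases t
    · rw [conj_f] at h4 h5 ⊢
      exact ⟨rfl, mem_pA.mpr ⟨_, h4⟩, mem_pB.mpr ⟨_, h5⟩⟩
    · rw [conj_t] at h4 h5 ⊢
      exact ⟨rfl, mem_pA.mpr ⟨_, h5⟩, mem_pB.mpr ⟨_, h4⟩⟩
  intro n hn
  rw [Subgroup.mem_normalizer_iff]
  intro h
  refine ⟨key n hn h, fun hh => ?_⟩
  have h1 := key n⁻¹ (Subgroup.inv_mem _ hn) _ hh
  have h2 : n⁻¹ * (n * h * n⁻¹) * n⁻¹⁻¹ = h := by group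
  rwa [h2] at h1

/-- only the subgroups `A × B` contribute -/
theorem loc_zero_ps [Finite G] [hp : Fact p.Prime] (hp2 : p ≠ 2) {Q : Subgroup (Wr G)}
    (hQ : IsPGroup p Q) (hne : Q ≠ ps (pA Q) (pB Q)) : loc p Q = 0 :=
  loc_zero (isPGroup_ps (isPGroup_pA hQ) (isPGroup_pB hQ)) (le_ps hp.out hp2 hQ) hne
    (normalizer_le_ps Q)

/-! ### nonconjugate factors -/

section nonconj

variable {A B : Subgroup G}

theorem mem_normalizer_ps (hnc : ¬ ConjugateSubgroups A B) {x : Wr G} :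
    x ∈ Subgroup.normalizer (ps A B : Set (Wr G)) ↔ x.s = false ∧
      x.a ∈ Subgroup.normalizer (A : Set G) ∧ x.b ∈ Subgroup.normalizer (B : Set G) := by
  obtain ⟨c, d, t⟩ := x
  rw [Subgroup.mem_normalizer_iff, Subgroup.mem_normalizer_iff, Subgroup.mem_normalizer_iff]
  constructor
  · intro h
    cases t
    · refine ⟨rfl, fun a => ?_, fun b => ?_⟩
      · have h1 := h ⟨a, 1, false⟩
        rw [conj_f] at h1
        simpa [mem_ps] using h1
      · have h1 := h ⟨1, b, false⟩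
        rw [conj_f] at h1
        simpa [mem_ps] using h1
    · exfalso
      apply hnc
      refine ⟨d, ?_⟩
      have h1 : ∀ a : G, a ∈ A ↔ d * a * d⁻¹ ∈ B := by
        intro a
        have h1 := h ⟨a, 1, false⟩
        rw [conj_t] at h1
        simpa [mem_ps] using h1
      ext b
      constructor
      · intro hb
        refine ⟨d⁻¹ * b * d, (h1 _).mpr ?_, ?_⟩
        · have : d * (d⁻¹ * b * d) * d⁻¹ = b := by group
          rwa [this]
        · change d * (d⁻¹ * b * d) * d⁻¹ = b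
          group
      · rintro ⟨a, ha, rfl⟩
        exact (h1 a).mp ha
  · rintro ⟨h0, h1, h2⟩ ⟨a, b, s⟩
    simp only at h0
    subst h0
    cases s
    · rw [conj_f]
      simp only [mem_ps, true_and]
      rw [h1 a, h2 b]
    · have h3 : ((⟨c, d, false⟩ : Wr G) * ⟨a, b, true⟩ * ⟨c, d, false⟩⁻¹).s = true := rfl
      simp only [mem_ps, h3, Bool.true_eq_false, false_and]

/-- the normalizer of `A × B` -/
def normPs (hnc : ¬ ConjugateSubgroups A B) : Subgroup.normalizer (ps A B : Set (Wr G)) ≃*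
    Subgroup.normalizer (A : Set G) × Subgroup.normalizer (B : Set G) where
  toFun x := (⟨x.1.a, ((mem_normalizer_ps hnc).mp x.2).2.1⟩,
    ⟨x.1.b, ((mem_normalizer_ps hnc).mp x.2).2.2⟩)
  invFun y := ⟨⟨y.1, y.2, false⟩, (mem_normalizer_ps hnc).mpr ⟨rfl, y.1.2, y.2.2⟩⟩
  left_inv := by
    rintro ⟨⟨a, b, s⟩, h⟩
    have h1 := ((mem_normalizer_ps hnc).mp h).1
    simp only at h1
    subst h1
    rfl
  right_inv _ := rfl
  map_mul' := by
    rintro ⟨⟨a, b, s⟩, h⟩ ⟨⟨a', b', s'⟩, h'⟩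
    have h1 := ((mem_normalizer_ps hnc).mp h).1
    simp only at h1
    subst h1
    rfl

theorem card_norm_ps (hnc : ¬ ConjugateSubgroups A B) :
    Nat.card (Subgroup.normalizer (ps A B : Set (Wr G))) =
      Nat.card (Subgroup.normalizer (A : Set G)) * Nat.card (Subgroup.normalizer (B : Set G)) := by
  rw [Nat.card_congr (normPs hnc).toEquiv, Nat.card_prod]

theorem loc_ps [Finite G] [Fact p.Prime] (hnc : ¬ ConjugateSubgroups A B) :
    loc p (ps A B) = loc p A * loc p B := by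
  unfold loc
  rw [← numDefectZero_prod]
  set N := Subgroup.normalizer (ps A B : Set (Wr G)) with hN
  let φ : N →* (Subgroup.normalizer (A : Set G) ⧸ A.subgroupOf (Subgroup.normalizer (A : Set G))) ×
      (Subgroup.normalizer (B : Set G) ⧸ B.subgroupOf (Subgroup.normalizer (B : Set G))) :=
    ((QuotientGroup.mk' (A.subgroupOf (Subgroup.normalizer (A : Set G)))).prodMap
      (QuotientGroup.mk' (B.subgroupOf (Subgroup.normalizer (B : Set G))))).comp
      (normPs hnc).toMonoidHom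
  have hφ : Function.Surjective φ := by
    rintro ⟨x, y⟩
    obtain ⟨a, rfl⟩ := QuotientGroup.mk'_surjective _ x
    obtain ⟨b, rfl⟩ := QuotientGroup.mk'_surjective _ y
    exact ⟨(normPs hnc).symm (a, b), rfl⟩
  have hker : φ.ker = (ps A B).subgroupOf N := by
    ext x
    have h0 := ((mem_normalizer_ps hnc).mp x.2).1
    rw [MonoidHom.mem_ker, Subgroup.mem_subgroupOf]
    constructor
    · intro h
      have h1 := congrArg Prod.fst h
      have h2 := congrArg Prod.snd h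
      have h3 := (QuotientGroup.eq_one_iff _).mp h1
      have h4 := (QuotientGroup.eq_one_iff _).mp h2
      exact ⟨h0, h3, h4⟩
    · rintro ⟨_, h3, h4⟩
      refine Prod.ext ?_ ?_
      · exact (QuotientGroup.eq_one_iff _).mpr h3
      · exact (QuotientGroup.eq_one_iff _).mpr h4
  exact numDefectZero_congr ((QuotientGroup.quotientMulEquivOfEq hker.symm).trans
    (QuotientGroup.quotientKerEquivOfSurjective φ hφ))

end nonconj

/-! ### equal factors -/

/-- functoriality of the wreath product -/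
def wrMap {X Y : Type} [Group X] [Group Y] (f : X →* Y) : Wr X →* Wr Y where
  toFun x := ⟨f x.a, f x.b, x.s⟩
  map_one' := by
    rw [Wr.one_def, Wr.one_def]
    simp
  map_mul' := by
    rintro ⟨a, b, s⟩ ⟨c, d, t⟩
    cases s <;> cases t <;> simp [mul_ff, mul_ft, mul_tf, mul_tt]

theorem card_norm_dbl [Finite G] (A : Subgroup G) :
    Nat.card (Subgroup.normalizer (dbl A : Set (Wr G))) =
      2 * Nat.card (Subgroup.normalizer (A : Set G)) ^ 2 := by
  rw [Nat.card_congr (normEquiv A).toEquiv, Wr.card]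

theorem loc_dbl [Finite G] [Fact p.Prime] (hp2 : p ≠ 2) (A : Subgroup G) :
    2 * loc p (dbl A) = loc p A ^ 2 + 3 * loc p A := by
  unfold loc
  rw [← numDefectZero_wr hp2]
  congr 1
  set N := Subgroup.normalizer (dbl A : Set (Wr G)) with hN
  let φ : N →* Wr (Subgroup.normalizer (A : Set G) ⧸
      A.subgroupOf (Subgroup.normalizer (A : Set G))) :=
    (wrMap (QuotientGroup.mk' (A.subgroupOf (Subgroup.normalizer (A : Set G))))).comp
      (normEquiv A).toMonoidHom
  have hφ : Function.Surjective φ := by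
    rintro ⟨x, y, s⟩
    obtain ⟨a, rfl⟩ := QuotientGroup.mk'_surjective _ x
    obtain ⟨b, rfl⟩ := QuotientGroup.mk'_surjective _ y
    exact ⟨(normEquiv A).symm ⟨a, b, s⟩, rfl⟩
  have hker : φ.ker = (dbl A).subgroupOf N := by
    ext x
    rw [MonoidHom.mem_ker, Subgroup.mem_subgroupOf]
    constructor
    · intro h
      have h1 := congrArg Wr.a h
      have h2 := congrArg Wr.b h
      have h0 : (x : Wr G).s = false := congrArg Wr.s h
      have h3 := (QuotientGroup.eq_one_iff _).mp h1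
      have h4 := (QuotientGroup.eq_one_iff _).mp h2
      exact ⟨h0, h3, h4⟩
    · rintro ⟨h0, h3, h4⟩
      refine Wr.ext ?_ ?_ ?_
      · exact (QuotientGroup.eq_one_iff _).mpr h3
      · exact (QuotientGroup.eq_one_iff _).mpr h4
      · exact h0
  exact numDefectZero_congr ((QuotientGroup.quotientMulEquivOfEq hker.symm).trans
    (QuotientGroup.quotientKerEquivOfSurjective φ hφ))

/-! ### conjugate factors -/

theorem ps_conj (A : Subgroup G) (g : G) :
    ps A (A.map (MulAut.conj g).toMonoidHom) =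
      (dbl A).map (MulAut.conj (⟨1, g, false⟩ : Wr G)).toMonoidHom := by
  ext ⟨a, b, s⟩
  constructor
  · rintro ⟨h1, h2, h3⟩
    simp only at h1 h2 h3
    subst h1
    obtain ⟨c, hc, rfl⟩ := h3
    refine ⟨⟨a, c, false⟩, ⟨rfl, h2, hc⟩, ?_⟩
    change (⟨1 * a * 1⁻¹, g * c * g⁻¹, false⟩ : Wr G) = ⟨a, g * c * g⁻¹, false⟩
    rw [one_mul, inv_one, mul_one]
  · rintro ⟨⟨c, d, t⟩, ⟨h1, h2, h3⟩, h⟩
    simp only at h1 h2 h3
    subst h1
    change (⟨1 * c * 1⁻¹, g * d * g⁻¹, false⟩ : Wr G) = ⟨a, b, s⟩ at h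
    rw [one_mul, inv_one, mul_one] at h
    obtain ⟨rfl, rfl, rfl⟩ := Wr.mk.inj h
    exact ⟨rfl, h2, d, h3, rfl⟩

theorem card_normalizer_map {Γ : Type} [Group Γ] (g : Γ) (Q : Subgroup Γ) :
    Nat.card (Subgroup.normalizer ((Q.map (MulAut.conj g).toMonoidHom : Subgroup Γ) : Set Γ)) =
      Nat.card (Subgroup.normalizer (Q : Set Γ)) := by
  rw [← normalizer_map (MulAut.conj g) Q]
  exact (Nat.card_congr
    ((MulAut.conj g).subgroupMap (Subgroup.normalizer (Q : Set Γ))).toEquiv).symm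

/-- the contribution of `A × B` -/
theorem contrib [Finite G] [Fact p.Prime] (hp2 : p ≠ 2) (A B : Subgroup G) :
    Nat.card (Subgroup.normalizer (ps A B : Set (Wr G))) * loc p (ps A B) =
      (Nat.card (Subgroup.normalizer (A : Set G)) * loc p A) *
        (Nat.card (Subgroup.normalizer (B : Set G)) * loc p B) +
      3 * (Nat.card (Subgroup.normalizer (A : Set G)) * loc p A) *
        (if ConjugateSubgroups A B then Nat.card (Subgroup.normalizer (A : Set G)) else 0) := by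
  by_cases h : ConjugateSubgroups A B
  · rw [if_pos h]
    obtain ⟨g, rfl⟩ := h
    rw [ps_conj, card_normalizer_map, loc_map, card_norm_dbl, card_normalizer_map, loc_map]
    have h1 := loc_dbl hp2 (p := p) A
    calc 2 * Nat.card (Subgroup.normalizer (A : Set G)) ^ 2 * loc p (dbl A) =
        Nat.card (Subgroup.normalizer (A : Set G)) ^ 2 * (2 * loc p (dbl A)) := by ring
      _ = _ := by
        rw [h1]
        ring
  · rw [if_neg h, card_norm_ps h, loc_ps h]
    ring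

end Pool.Agent.Q149.WA
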