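import Pool.Agent.Q149.WA.Sub

/-!
# Weights of wreath products with a group of order two
-/

set_option autoImplicit false

open scoped Classical

noncomputable section

namespace Pool.Agent.Q149.WA

open Pool.Agent.Q90.WR
open Pool.Agent.Y63.AWC (loc loc_map numDefectZero numWeights numRegularClasses numWeights_congr
  numRegularClasses_congr numDefectZero_eq DZ card_mul_numWeights fiber_sum ConjugateSubgroups)

variable {p : ℕ} {G : Type} [Group G]

/-- the conjugates of a subgroup, counted by the order of the normalizer -/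
theorem sum_conj [Finite G] [Fintype {Q : Subgroup G // IsPGroup p Q}] (A : Subgroup G)
    (hA : IsPGroup p A) :
    ∑ B : {Q : Subgroup G // IsPGroup p Q},
      (if ConjugateSubgroups A B.1 then Nat.card (Subgroup.normalizer (A : Set G)) else 0) =
        Nat.card G := by
  have h := fiber_sum (fun _ : G => True)
    (fun g : G => (⟨A.map (MulAut.conj g).toMonoidHom, hA.map _⟩ :
      {Q : Subgroup G // IsPGroup p Q}))
  have h1 : Nat.card {a : G // True} = Nat.card G :=
    Nat.card_congr (Equiv.subtypeUnivEquiv fun _ => trivial)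
  rw [h1] at h
  rw [← h]
  refine Finset.sum_congr rfl fun B _ => ?_
  by_cases hc : ConjugateSubgroups A B.1
  · rw [if_pos hc]
    obtain ⟨g, hg⟩ := hc
    have hn : ∀ n : G, n ∈ Subgroup.normalizer (A : Set G) ↔
        A.map (MulAut.conj (g * n)).toMonoidHom = B.1 := by
      intro n
      rw [hg]
      have e1 : A.map (MulAut.conj (g * n)).toMonoidHom =
          (A.map (MulAut.conj n).toMonoidHom).map (MulAut.conj g).toMonoidHom := by
        rw [Subgroup.map_map]
        congr 1
        ext x
        simp [mul_assoc]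
      rw [e1, (Subgroup.map_injective (MulAut.conj g).injective).eq_iff,
        Subgroup.mem_normalizer_iff]
      constructor
      · intro h3
        ext x
        constructor
        · rintro ⟨y, hy, rfl⟩
          exact (h3 y).mp hy
        · intro hx
          refine ⟨n⁻¹ * x * n, (h3 _).mpr ?_, ?_⟩
          · have : n * (n⁻¹ * x * n) * n⁻¹ = x := by group
            rw [this]
            exact hx
          · change n * (n⁻¹ * x * n) * n⁻¹ = x
            group
      · intro h3 x
        constructor
        · intro hx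
          have : n * x * n⁻¹ ∈ A.map (MulAut.conj n).toMonoidHom := ⟨x, hx, rfl⟩
          rw [h3] at this
          exact this
        · intro hx
          rw [← h3] at hx
          obtain ⟨y, hy, hyx⟩ := hx
          have h4 : n * y * n⁻¹ = n * x * n⁻¹ := hyx
          have h5 : y = x := by simpa using h4
          rwa [← h5]
    refine Nat.card_congr
      { toFun := fun n => ⟨g * n, trivial, Subtype.ext ((hn n).mp n.2)⟩
        invFun := fun x => ⟨g⁻¹ * x, (hn _).mpr ?_⟩
        left_inv := fun n => by
          apply Subtype.ext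
          simp
        right_inv := fun x => by
          apply Subtype.ext
          simp }
    rw [mul_inv_cancel_left]
    exact congrArg Subtype.val x.2.2
  · rw [if_neg hc]
    symm
    rw [Nat.card_eq_zero]
    left
    constructor
    rintro ⟨g, -, hg⟩
    exact hc ⟨g, (congrArg Subtype.val hg).symm⟩

/-- the number of weights of `G ≀ C₂` -/
theorem numWeights_wr [Finite G] [hp : Fact p.Prime] (hp2 : p ≠ 2) :
    2 * numWeights p (Wr G) = numWeights p G ^ 2 + 3 * numWeights p G := by
  have f1 : Fintype {Q : Subgroup G // IsPGroup p Q} := Fintype.ofFinite _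
  have f2 : Fintype {Q : Subgroup (Wr G) // IsPGroup p Q} := Fintype.ofFinite _
  have h1 := card_mul_numWeights p (Wr G)
  have h2 := card_mul_numWeights p G
  rw [finsum_eq_sum_of_fintype] at h1 h2
  have h3 : ∑ t : {Q : Subgroup G // IsPGroup p Q} × {Q : Subgroup G // IsPGroup p Q},
      Nat.card (Subgroup.normalizer (ps t.1.1 t.2.1 : Set (Wr G))) * loc p (ps t.1.1 t.2.1) =
      ∑ Q : {Q : Subgroup (Wr G) // IsPGroup p Q},
        Nat.card (Subgroup.normalizer (Q.1 : Set (Wr G))) * loc p Q.1 := by
    refine Finset.sum_of_injOn (fun t => ⟨ps t.1.1 t.2.1, isPGroup_ps t.1.2 t.2.2⟩) ?_ ?_ ?_ ?_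
    · rintro ⟨A, B⟩ - ⟨A', B'⟩ - h
      have h4 : ps A.1 B.1 = ps A'.1 B'.1 := congrArg Subtype.val h
      refine Prod.ext (Subtype.ext ?_) (Subtype.ext ?_)
      · ext a
        have h5 : (⟨a, 1, false⟩ : Wr G) ∈ ps A.1 B.1 ↔ (⟨a, 1, false⟩ : Wr G) ∈ ps A'.1 B'.1 := by
          rw [h4]
        simpa [mem_ps] using h5
      · ext b
        have h5 : (⟨1, b, false⟩ : Wr G) ∈ ps A.1 B.1 ↔ (⟨1, b, false⟩ : Wr G) ∈ ps A'.1 B'.1 := by
          rw [h4]
        simpa [mem_ps] using h5
    · intro t _
      exact Finset.mem_coe.mpr (Finset.mem_univ _)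
    · intro Q _ hQ
      rw [loc_zero_ps hp2 Q.2, mul_zero]
      intro h4
      apply hQ
      exact ⟨(⟨pA Q.1, isPGroup_pA Q.2⟩, ⟨pB Q.1, isPGroup_pB Q.2⟩),
        Finset.mem_coe.mpr (Finset.mem_univ _), Subtype.ext h4.symm⟩
    · intro t _
      rfl
  rw [← h3, Fintype.sum_prod_type] at h1
  simp_rw [contrib hp2, Finset.sum_add_distrib, ← Finset.mul_sum] at h1
  have h4 : ∀ A : {Q : Subgroup G // IsPGroup p Q},
      ∑ B : {Q : Subgroup G // IsPGroup p Q}, (if ConjugateSubgroups A.1 B.1 then
        Nat.card (Subgroup.normalizer (A.1 : Set G)) else 0) = Nat.card G :=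
    fun A => sum_conj A.1 A.2
  simp_rw [h4, ← h2, ← Finset.sum_mul, ← Finset.mul_sum] at h1
  rw [← h2, Wr.card] at h1
  have h5 : 0 < Nat.card G ^ 2 := pow_pos Nat.card_pos _
  apply Nat.eq_of_mul_eq_mul_left h5
  calc Nat.card G ^ 2 * (2 * numWeights p (Wr G)) =
      2 * Nat.card G ^ 2 * numWeights p (Wr G) := by ring
    _ = _ := by
      rw [h1]
      ring

/-! ### bounds -/

theorem numRegularClasses_le (p : ℕ) (G : Type) [Group G] [Finite G] :
    numRegularClasses p G ≤ Nat.card G := by
  unfold numRegularClasses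
  refine (Nat.card_le_card_of_injective _ Subtype.val_injective).trans ?_
  exact Nat.card_le_card_of_surjective ConjClasses.mk ConjClasses.mk_surjective

theorem numDefectZero_le (p : ℕ) [Fact p.Prime] (X : Type) [Group X] [Finite X] :
    numDefectZero p X ≤ Nat.card X := by
  have := Fintype.ofFinite X
  rw [numDefectZero_eq]
  exact (Finset.card_filter_le _ _).trans (card_Irr_le X)

theorem numWeights_le (p : ℕ) [Fact p.Prime] (G : Type) [Group G] [Finite G] :
    numWeights p G ≤ Nat.card G * Nat.card {Q : Subgroup G // IsPGroup p Q} := by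
  have f1 : Fintype {Q : Subgroup G // IsPGroup p Q} := Fintype.ofFinite _
  have h2 := card_mul_numWeights p G
  rw [finsum_eq_sum_of_fintype] at h2
  have h3 : ∑ Q : {Q : Subgroup G // IsPGroup p Q},
      Nat.card (Subgroup.normalizer (Q.1 : Set G)) * loc p Q.1 ≤
      ∑ Q : {Q : Subgroup G // IsPGroup p Q}, Nat.card G * Nat.card G := by
    refine Finset.sum_le_sum fun Q _ => Nat.mul_le_mul (Subgroup.card_le_card_group _) ?_
    unfold loc
    refine (numDefectZero_le p _).trans ?_
    refine (Nat.card_le_card_of_surjective _ (QuotientGroup.mk'_surjective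
      (Q.1.subgroupOf (Subgroup.normalizer (Q.1 : Set G))))).trans ?_
    exact Subgroup.card_le_card_group _
  rw [← h2, Finset.sum_const, Finset.card_univ, ← Nat.card_eq_fintype_card, smul_eq_mul] at h3
  have h5 : 0 < Nat.card G := Nat.card_pos
  apply Nat.le_of_mul_le_mul_left (c := Nat.card G) _ h5
  rw [← mul_assoc, mul_comm (Nat.card G * Nat.card G)]
  exact h3

end Pool.Agent.Q149.WA
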